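import Mathlib

/-!
# Powers mod 2 of binary pattern-count matrices (MP_b7336c_co, Q1, full answer)

For every `n ≥ 1`, with `N = 2 ^ 2 ^ n`, the `N × N` matrix `M` of the numbers of occurrences of
the binary expansion of `j` in the binary expansion of `i` satisfies
`M ^ (2 ^ n) ≡ I + E_{N,1} (mod 2)`.
-/

namespace Pool.Agent.Results.MP_b7336c_co.PowerModTwo

/-- The binary representation of `i` (most significant digit first, no leading zeros). -/
def bin (i : ℕ) : List ℕ := (Nat.digits 2 i).reverse

/-- The number of (possibly overlapping) occurrences of the word `w` as a block of consecutive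
letters of the word `v`: the number of suffixes of `v` which start with `w`. -/
def occ (w v : List ℕ) : ℕ := v.tails.countP (fun t => w.isPrefixOf t)

/-- The `N × N` integer matrix `(m_{i,j})_{1 ≤ i,j ≤ N}`, where `m_{i,j}` is the number of
occurrences of the binary representation of `j` in the binary representation of `i`
(the index `i : Fin N` stands for the row or column number `i + 1`). -/
def M (N : ℕ) : Matrix (Fin N) (Fin N) ℤ :=
  Matrix.of fun i j => (occ (bin ((j : ℕ) + 1)) (bin ((i : ℕ) + 1)) : ℤ)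

/-- The `N × N` matrix whose only nonzero entry is a `1` in row `N`, column `1`. -/
def E (N : ℕ) : Matrix (Fin N) (Fin N) ℤ :=
  Matrix.of fun i j => if (i : ℕ) + 1 = N ∧ (j : ℕ) + 1 = 1 then 1 else 0

/-! ### Words -/

theorem occ_nil (w : List ℕ) (hw : w ≠ []) : occ w [] = 0 := by
  cases w with
  | nil => exact absurd rfl hw
  | cons a w => simp [occ, List.isPrefixOf]

theorem occ_cons (w : List ℕ) (a : ℕ) (v : List ℕ) :
    occ w (a :: v) = (if w <+: a :: v then 1 else 0) + occ w v := by
  unfold occ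
  rw [List.tails_cons, List.countP_cons, add_comm]
  simp [List.isPrefixOf_iff_prefix]

theorem occ_pos_le {w v : List ℕ} (hw : w ≠ []) (h : occ w v ≠ 0) : w.length ≤ v.length := by
  induction v with
  | nil => exact absurd (occ_nil w hw) h
  | cons a v ih =>
    rw [occ_cons] at h
    by_cases h1 : w <+: a :: v
    · exact h1.length_le
    · rw [if_neg h1, zero_add] at h
      have := ih h
      simp only [List.length_cons]
      omega

theorem occ_eq_zero_of_lt {w v : List ℕ} (hw : w ≠ []) (h : v.length < w.length) :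
    occ w v = 0 := by
  by_contra h0
  have := occ_pos_le hw h0
  omega

theorem occ_eq_len {w v : List ℕ} (hw : w ≠ []) (h : w.length = v.length) :
    occ w v = if w = v then 1 else 0 := by
  cases v with
  | nil =>
    have : w = [] := by simpa using h
    exact absurd this hw
  | cons a v =>
    rw [occ_cons, occ_eq_zero_of_lt hw (v := v) (by simp only [List.length_cons] at h; omega)]
    by_cases h1 : w = a :: v
    · subst h1
      simp
    · have h2 : ¬ w <+: a :: v := fun h3 => h1 (h3.eq_of_length h)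
      simp [h1, h2]

theorem bin_ne_nil {i : ℕ} (hi : i ≠ 0) : bin i ≠ [] := by
  unfold bin
  simpa using Nat.digits_ne_nil_iff_ne_zero.mpr hi

theorem bin_inj {i j : ℕ} (h : bin i = bin j) : i = j := by
  unfold bin at h
  exact Nat.digits_inj_iff.mp (List.reverse_injective h)

theorem length_bin {i : ℕ} (hi : i ≠ 0) : (bin i).length = Nat.log 2 i + 1 := by
  unfold bin
  rw [List.length_reverse, Nat.length_digits 2 i (by norm_num) hi]

theorem bin_two_pow (m : ℕ) : bin (2 ^ m) = 1 :: List.replicate m 0 := by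
  unfold bin
  have : Nat.digits 2 (2 ^ m) = List.replicate m 0 ++ [1] := by
    have h := Nat.digits_base_pow_mul (b := 2) (k := m) (m := 1) (by norm_num) (by norm_num)
    simpa using h
  rw [this]
  simp

theorem bin_head {i : ℕ} (hi : i ≠ 0) : ∃ t, bin i = 1 :: t := by
  have h0 := bin_ne_nil hi
  obtain ⟨a, t, ht⟩ := List.exists_cons_of_ne_nil h0
  refine ⟨t, ?_⟩
  rw [ht]
  congr 1
  have hl : (Nat.digits 2 i).getLast (Nat.digits_ne_nil_iff_ne_zero.mpr hi) ≠ 0 :=
    Nat.getLast_digit_ne_zero 2 hi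
  have h1 : (Nat.digits 2 i) = t.reverse ++ [a] := by
    have : (bin i).reverse = (a :: t).reverse := by rw [ht]
    unfold bin at this
    rw [List.reverse_reverse] at this
    rw [this]
    simp
  have h2 : a ∈ Nat.digits 2 i := by rw [h1]; simp
  have h3 : a < 2 := Nat.digits_lt_base (by norm_num) h2
  have h4 : a ≠ 0 := by
    have : (Nat.digits 2 i).getLast (Nat.digits_ne_nil_iff_ne_zero.mpr hi) = a := by
      simp [h1]
    rw [← this]
    exact hl
  omega

theorem occ_replicate_zero {w t : List ℕ} (hw : w = 1 :: t) (m : ℕ) :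
    occ w (List.replicate m 0) = 0 := by
  induction m with
  | zero => exact occ_nil w (by simp [hw])
  | succ m ih =>
    rw [List.replicate_succ, occ_cons, ih]
    have : ¬ w <+: 0 :: List.replicate m 0 := by
      rw [hw]
      intro h
      have := (List.cons_prefix_cons.mp h).1
      omega
    simp [this]

/-- Occurrences of a binary representation in `1 0 ⋯ 0`. -/
theorem occ_bin_two_pow {j m : ℕ} (hj : j ≠ 0) :
    occ (bin j) (bin (2 ^ m)) = if (bin j) <+: bin (2 ^ m) then 1 else 0 := by
  obtain ⟨t, ht⟩ := bin_head hj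
  rw [bin_two_pow, occ_cons, occ_replicate_zero ht, add_zero]

theorem eq_two_pow_of_isPrefix {j m : ℕ} (hj : j ≠ 0) (h : bin j <+: bin (2 ^ m)) :
    j = 2 ^ Nat.log 2 j := by
  apply bin_inj
  rw [bin_two_pow] at h ⊢
  have hl := length_bin hj
  rw [List.prefix_iff_eq_take] at h
  rw [h, hl, List.take_succ_cons, List.take_replicate]
  have hle : (bin j).length ≤ m + 1 := by
    rw [h]
    simp
  rw [Nat.min_eq_left (by omega)]

/-! ### The nilpotent part -/

/-- `u i j`: number of occurrences of `bin j` in `bin i`, minus `δ_{ij}`. -/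
def u (i j : ℕ) : ℤ := (occ (bin j) (bin i) : ℤ) - (if i = j then 1 else 0)

theorem u_eq_zero {i j : ℕ} (hi : i ≠ 0) (hj : j ≠ 0) (h : Nat.log 2 i ≤ Nat.log 2 j) :
    u i j = 0 := by
  unfold u
  have hli := length_bin hi
  have hlj := length_bin hj
  rcases Nat.lt_or_ge (Nat.log 2 i) (Nat.log 2 j) with h1 | h1
  · rw [occ_eq_zero_of_lt (bin_ne_nil hj) (by omega)]
    have : i ≠ j := by
      rintro rfl
      omega
    simp [this]
  · rw [occ_eq_len (bin_ne_nil hj) (by omega)]
    by_cases hij : i = j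
    · subst hij
      simp
    · have : ¬ bin j = bin i := fun h2 => hij (bin_inj h2).symm
      simp [hij, this]

theorem u_two_pow {m j : ℕ} (hj : j ≠ 0) (hlog : Nat.log 2 j = m) :
    u (2 ^ (m + 1)) j = if j = 2 ^ m then 1 else 0 := by
  unfold u
  rw [occ_bin_two_pow hj]
  have hne : ¬ (2 ^ (m + 1) = j) := by
    intro h
    rw [← h, Nat.log_pow (by norm_num)] at hlog
    omega
  rw [if_neg hne]
  by_cases h : bin j <+: bin (2 ^ (m + 1))
  · have h2 := eq_two_pow_of_isPrefix hj h
    rw [hlog] at h2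
    rw [if_pos h, if_pos h2]
    simp
  · have h2 : ¬ j = 2 ^ m := by
      intro h3
      apply h
      rw [h3, bin_two_pow, bin_two_pow, List.replicate_succ']
      exact ⟨[0], by simp⟩
    simp [h, h2]

/-- The matrix `U = M - I`. -/
def U (N : ℕ) : Matrix (Fin N) (Fin N) ℤ :=
  Matrix.of fun i j => u ((i : ℕ) + 1) ((j : ℕ) + 1)

theorem M_eq (N : ℕ) : M N = 1 + U N := by
  ext i j
  simp only [M, U, u, Matrix.of_apply, Matrix.add_apply, Matrix.one_apply]
  by_cases h : i = j
  · subst h
    simp
  · have h2 : ¬ ((i : ℕ) + 1 = (j : ℕ) + 1) := by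
      intro h2
      exact h (Fin.ext (by omega))
    rw [if_neg h, if_neg h2]
    simp

theorem U_pow_eq_zero (N k : ℕ) (i j : Fin N)
    (h : Nat.log 2 ((i : ℕ) + 1) < Nat.log 2 ((j : ℕ) + 1) + k) : (U N ^ k) i j = 0 := by
  induction k generalizing i with
  | zero =>
    rw [pow_zero, Matrix.one_apply_ne]
    rintro rfl
    omega
  | succ k ih =>
    rw [pow_succ', Matrix.mul_apply]
    apply Finset.sum_eq_zero
    intro l _
    by_cases hl : Nat.log 2 ((l : ℕ) + 1) < Nat.log 2 ((j : ℕ) + 1) + k
    · rw [ih l hl, mul_zero]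
    · have : U N i l = 0 := by
        show u _ _ = 0
        exact u_eq_zero (by omega) (by omega) (by omega)
      rw [this, zero_mul]

theorem U_pow_last (N k : ℕ) (i j : Fin N) (hi : (i : ℕ) + 1 = 2 ^ k) (hj : (j : ℕ) + 1 = 1) :
    (U N ^ k) i j = 1 := by
  induction k generalizing i with
  | zero =>
    have : i = j := by
      apply Fin.ext
      rw [pow_zero] at hi
      omega
    rw [pow_zero, this, Matrix.one_apply_eq]
  | succ k ih =>
    rw [pow_succ', Matrix.mul_apply]
    have hpos : 0 < 2 ^ k := by positivity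
    have hlt : 2 ^ k - 1 < N := by
      have := i.isLt
      have h2 : 2 ^ k ≤ 2 ^ (k + 1) := Nat.pow_le_pow_right (by norm_num) (by omega)
      omega
    have hl0 : ((⟨2 ^ k - 1, hlt⟩ : Fin N) : ℕ) + 1 = 2 ^ k := by
      show 2 ^ k - 1 + 1 = 2 ^ k
      omega
    rw [Finset.sum_eq_single (⟨2 ^ k - 1, hlt⟩ : Fin N)]
    · rw [ih _ hl0, mul_one]
      show u _ _ = 1
      rw [hi, hl0, u_two_pow (by omega) (by rw [Nat.log_pow (by norm_num)])]
      simp
    · intro l _ hl
      by_cases h1 : Nat.log 2 ((l : ℕ) + 1) < k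
      · rw [U_pow_eq_zero N k l j (by rw [hj]; simpa using h1), mul_zero]
      · have : U N i l = 0 := by
          show u _ _ = 0
          rw [hi]
          rcases Nat.lt_or_ge k (Nat.log 2 ((l : ℕ) + 1)) with h2 | h2
          · exact u_eq_zero (by positivity) (by omega)
              (by rw [Nat.log_pow (by norm_num)]; omega)
          · rw [u_two_pow (by omega) (by omega), if_neg]
            intro h3
            apply hl
            apply Fin.ext
            show (l : ℕ) = 2 ^ k - 1
            omega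
        rw [this, zero_mul]
    · intro h
      exact absurd (Finset.mem_univ _) h

/-- Over the integers, `(M - I) ^ (2 ^ n) = E_{N,1}`. -/
theorem U_pow_two_pow (m : ℕ) : U (2 ^ m) ^ m = E (2 ^ m) := by
  ext i j
  have hi := i.isLt
  by_cases h : (i : ℕ) + 1 = 2 ^ m ∧ (j : ℕ) + 1 = 1
  · rw [U_pow_last _ m i j h.1 h.2]
    simp only [E, Matrix.of_apply]
    rw [if_pos h]
  · have h1 : (E (2 ^ m)) i j = 0 := by
      simp only [E, Matrix.of_apply]
      rw [if_neg h]
    rw [h1]
    apply U_pow_eq_zero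
    have hle : Nat.log 2 ((i : ℕ) + 1) ≤ m := by
      calc Nat.log 2 ((i : ℕ) + 1) ≤ Nat.log 2 (2 ^ m) := Nat.log_mono_right (by omega)
        _ = m := Nat.log_pow (by norm_num) m
    by_contra hcon
    rw [Nat.not_lt] at hcon
    have hj0 : Nat.log 2 ((j : ℕ) + 1) = 0 := by omega
    have him : Nat.log 2 ((i : ℕ) + 1) = m := by omega
    apply h
    constructor
    · have := Nat.pow_log_le_self 2 (x := (i : ℕ) + 1) (by omega)
      rw [him] at this
      omega
    · rcases Nat.log_eq_zero_iff.mp hj0 with h2 | h2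
      · omega
      · omega

/-- **MP_b7336c_co, Q1.** For every `n ≥ 1`, `M_n ^ (2 ^ n) ≡ I + E_{N,1} (mod 2)`, entrywise,
where `N = 2 ^ 2 ^ n`. -/
theorem result (n : ℕ) (_hn : 1 ≤ n) (i j : Fin (2 ^ 2 ^ n)) :
    (M (2 ^ 2 ^ n) ^ 2 ^ n) i j ≡ (1 + E (2 ^ 2 ^ n)) i j [ZMOD 2] := by
  rw [← U_pow_two_pow (2 ^ n), M_eq]
  have key : ∀ A : Matrix (Fin (2 ^ 2 ^ n)) (Fin (2 ^ 2 ^ n)) ℤ,
      ((1 + A) ^ 2 ^ n).map (Int.cast : ℤ → ZMod 2) = (1 + A ^ 2 ^ n).map Int.cast := by
    intro A
    have hf : ∀ B : Matrix (Fin (2 ^ 2 ^ n)) (Fin (2 ^ 2 ^ n)) ℤ,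
        B.map (Int.cast : ℤ → ZMod 2) = (Int.castRingHom (ZMod 2)).mapMatrix B := by
      intro B
      rfl
    rw [hf, hf, map_pow, map_add, map_add, map_one, map_pow]
    have h1 := add_pow_char_pow_of_commute 2 n
      (Commute.one_left ((Int.castRingHom (ZMod 2)).mapMatrix A))
    rw [h1, one_pow]
  have h := congrFun (congrFun (key (U (2 ^ 2 ^ n))) i) j
  rw [Matrix.map_apply, Matrix.map_apply] at h
  exact (ZMod.intCast_eq_intCast_iff _ _ 2).mp h

end Pool.Agent.Results.MP_b7336c_co.PowerModTwo
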